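import Pool.Agent.Q269.GJ.StL

/-!
# Project GL (helper269): the exact law of the Selmer groups in constant extensions of odd degree

Lemma jobs in linear algebra. Notation: `n` odd, `n ≥ 3`, `F` a finite field of characteristic two, `f = |F|`, `h` the
number of copies, `W0 = W0 n F` (dimension `n - 1`), `m = (n - 1) h`. The `h`-th power of the number of elements of the
kernel `Kn` is the number of the `h`-tuples of elements of the kernel, that is of the solutions of the system with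
coefficients `W0^h`. In the unitary case `f = Q²`, `x̄ = x^Q`, `F₀ = {x | x̄ = x}`, `V n F = W0 × W0`, `V^h = VH h n F` of
dimension `2m`. These jobs generalise the jobs of the same kind of project GJ (`Pool/Agent/Q269/GJ/StL.lean`), where
`h = 1`; the proofs there (modules: see `Pool/Agent/Q269/GJ/Asm.lean`) can be copied and adapted.
-/

set_option autoImplicit false
set_option linter.all false

open scoped Classical
open Finset

namespace Pool.Agent.Q269.GL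

open Pool.Agent.Q269.GR (F2 cf ev Un IsRt gg Bt AA ts HU HG Herm)
open Pool.Agent.Q269.GJ (W0 lap eqn Kn Sy pai Gen V hf gx qf Ncj KM)

/-! ### the unitary case -/

section unitary

/-- `h` copies of the symplectic space -/
abbrev VH (h n : ℕ) (F : Type) [Field F] : Type := Fin h → V n F

variable {F : Type} [Field F] {h n : ℕ}

/-- the Hermitian form -/
noncomputable def hfh (Q : ℕ) (z z' : VH h n F) : F := ∑ c, hf Q (z c) (z' c)

variable [Algebra F2 F]

/-- the Hermitian forms attached to the weights -/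
noncomputable def gxh (Q : ℕ) (x : Fin n → Fin n → F2) (z : VH h n F) : F := ∑ c, gx Q x (z c)

/-- the local weight -/
noncomputable def qfh (Q : ℕ) (d : F) (x : Fin n → Fin n → F2) (z : VH h n F) : F := ∑ c, qf Q d x (z c)

end unitary

/-- the number of the subspaces of dimension `t` of `F ^ h` -/
noncomputable def NS (F : Type) [Field F] (h t : ℕ) : ℕ :=
  Nat.card {T : Submodule F (Fin h → F) // Module.finrank F T = t}

/-- **JOB GL-KUO.** The moments as a character sum. (GJ: UORT, `Pool/Agent/Q190/GJ/UORT.lean`, which is `h = 1`.)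
Proof. `#Kn^h` is the number of the families `w : J → (Fin h → W0)` whose `h` components are in the kernel. For `w` and one index
`i`: `∑_(v : Fin h → W0) ts (∑_c v̄_c · eqn_i(w_c)) = f^m` if all `eqn_i(w_c) = 0` and `0` if not. So
`f^(m |J|) #Kn^h = ∑_w ∑_v ∏_i ts (∑_c v̄_(i,c) · eqn_i(w_c))`, a sum over `z = (w, v) : J → V^h`, and the computation for each
component `c` is that of UORT. For `i, j ∉ S` the entry `M_ij = s i j` runs through `F`: the sum over `s i j` is `f` if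
`∑_c ⟨z_(i,c), z_(j,c)⟩ = 0` and `0` if not; the other entries of `s` do not occur. -/
def S_KUO : Prop := ∀ (F : Type) [Field F] [Fintype F] [Algebra F2 F] (Q : ℕ),
  Fintype.card F = Q ^ 2 → ∀ n h : ℕ, Odd n → ∀ (J : Type) [Fintype J] [LinearOrder J] (S : Finset J)
  (B : J → J → F) (dd : J → F) (x : J → Fin n → Fin n → F2), (∀ i, Sy (x i)) →
  (∀ i j, B j i = B i j ^ Q) →
  (Fintype.card F : ℝ) ^ ((n - 1) * h * Fintype.card J) *
      ∑ s : J → J → F, (Nat.card (Kn (HU S B Q s) dd x) : ℝ) ^ h =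
    (Fintype.card (J → J → F) : ℝ) *
      ∑ z ∈ (univ : Finset (J → VH h n F)).filter
        (fun z => ∀ i j, i < j → i ∉ S → j ∉ S → hfh Q (z i) (z j) = 0),
        ts (∑ i, qfh Q (dd i) (x i) (z i) +
          ∑ i, ∑ j, if i < j ∧ (i ∈ S ∨ j ∈ S) then B i j * hfh Q (z i) (z j) else 0)

/-- **JOB GL-KUG.** Gauss sums on a maximal isotropic subspace of `V^h`. (GJ: UGAU, `Pool/Agent/Q190/GJ/UGAU.lean`.)
Proof. As for UGAU (docstring in `Pool/Agent/Q269/GJ/StL.lean`), with the sums over the copies: for `z ∈ U` the element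
`u(z) = ∑_c v̄_c · w_c` is in `F₀`, `tr (d u) = 0`, so `tr (qfh z) = tr (e z)`, `e z = ∑_c v̄_c · lap w_c`, `e + ē = gxh z`. (1) If
`gxh = 0` on `U` then `e z ∈ F₀`, `tr (e z) = 0`. (2) The square of the sum is at most `|U| |R|`, `R` a proper subspace of
`U`, so `|∑|² ≤ |U|²/f = (|U|/Q)²`, `|U| = f^m`. -/
def S_KUG : Prop := ∀ (F : Type) [Field F] [Fintype F] [Algebra F2 F] (Q : ℕ),
  Fintype.card F = Q ^ 2 → ∀ n h : ℕ, Odd n → 3 ≤ n → ∀ (U : Submodule F (VH h n F)),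
  Nat.card U = Fintype.card F ^ ((n - 1) * h) →
  (∀ z ∈ U, ∀ z' ∈ U, hfh Q z z' = 0) → ∀ (d : F) (x : Fin n → Fin n → F2), d ^ Q = d → Sy x →
  ((∀ z ∈ U, gxh Q x z = 0) → ∀ z ∈ U, ts (qfh Q d x z) = 1) ∧
  ((∃ z ∈ U, gxh Q x z ≠ 0) → ∀ z₀ : VH h n F,
    |∑ z ∈ (univ : Finset (VH h n F)).filter (· ∈ U), ts (qfh Q d x z + hfh Q z₀ z)| ≤
      (Fintype.card F : ℝ) ^ ((n - 1) * h) / Q)

/-- **JOB GL-KUI.** The number of the maximal isotropic subspaces which are isotropic for all the forms `gxh`.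
(GJ: UISO, `Pool/Agent/Q190/GJ/UISO.lean`, gives `≤ Q + 1` for `h = 1`.)
Proof. `𝓗 = F^h × F^h` with the nondegenerate Hermitian form `b((α, β), (α', β')) = ∑_c (β̄_c α'_c + β'_c ᾱ_c)`. For `l ≠ l'` let
`π_(ll') : V^h → 𝓗`, `z ↦ (w_(c,l) + w_(c,l'), v_(c,l) + v_(c,l'))_c`. For the indicator `x` of the pairs `(l, l')`, `(l', l)`:
`gxh Q x z = b(π z, π z)`; polarise (`z + λ z'`): `I_(ll') = π_(ll')(U)` is totally isotropic, so `dim I_(ll') ≤ h`. `l₀` = the last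
index; `z ↦ (π_(l l₀) z)_(l ≠ l₀)` is injective into a product of `n - 1` spaces of dimension at most `h`, and `dim U = (n-1) h`: so
it is bijective onto `∏ I_(l l₀)`, all of dimension `h`. For `l ≠ l'` both `≠ l₀` (`n ≥ 3`): `π_(l l') z = s_l + s_l'` with
arbitrary `s_l ∈ I_(l l₀)`, `s_l' ∈ I_(l' l₀)`, so both are contained in `I_(l l')`, of dimension `≤ h`: all these spaces are equal to
one `L`, maximal isotropic in `𝓗`, and `U = {z | π_(l l₀) z ∈ L for all l}`. Conversely for a maximal isotropic `L` (dimension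
`h`) this `U` has `f^m` elements; since `∑_l z_l = 0` and `n` is odd, `z_(l₀) = ∑_(l) (z_l + z_(l₀)) ∈ L` (with
`z_l = (w_(c,l), v_(c,l))_c ∈ 𝓗`), so all `z_l ∈ L` and all the forms vanish on `U`. So the number is that of the maximal isotropic
`L ⊆ 𝓗`. Such an `L` is given by `T = ` its projection to the first factor `F^h` (dimension `t`) and
`L ∩ (0 × F^h) = 0 × {β | ∑_c β̄_c α_c = 0 for all α ∈ T}` (dimensions: `h - t`), and the form `(α, α') ↦ ∑_c β̄_c α'_c`,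
`(α, β) ∈ L`, `α' ∈ T`, is well defined on `T`, and Hermitian; every Hermitian form on `T` occurs once, and there are `Q^(t²)` of
them (diagonal entries in `F₀`, the others free). -/
def S_KUI : Prop := ∀ (F : Type) [Field F] [Fintype F] [Algebra F2 F] (Q : ℕ),
  Fintype.card F = Q ^ 2 → ∀ n h : ℕ, Odd n → 3 ≤ n →
  {U : Submodule F (VH h n F) | Nat.card U = Fintype.card F ^ ((n - 1) * h) ∧
    (∀ z ∈ U, ∀ z' ∈ U, hfh Q z z' = 0) ∧
    ∀ x : Fin n → Fin n → F2, Sy x → ∀ z ∈ U, gxh Q x z = 0}.ncard =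
  ∑ t ∈ range (h + 1), NS F h t * Q ^ (t ^ 2)

/-- **JOB GL-KUR.** The families of pairwise orthogonal vectors. (GJ: URST, `Pool/Agent/Q190/GJ/URST.lean`.)
Proof. As for URST with `m = (n - 1) h`, `dim V^h = 2m`: `A = {i | ⟨z_i, z_i⟩ ≠ 0}` has at most `2m` elements (linearly
independent), `W` = the span of the others is totally isotropic, `dim W ≤ m`, and if `dim W = m` then `A = ∅` and `W` is the span of
all: excluded. So `dim W ≤ m - 1`. -/
def S_KUR : Prop := ∀ (F : Type) [Field F] [Fintype F] [Algebra F2 F] (Q : ℕ),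
  Fintype.card F = Q ^ 2 → ∀ n h : ℕ, Odd n → 3 ≤ n → 1 ≤ h → ∀ (J : Type) [Fintype J],
  ((univ : Finset (J → VH h n F)).filter fun z => (∀ i j, i ≠ j → hfh Q (z i) (z j) = 0) ∧
    ¬ (Nat.card (Submodule.span F (Set.range z)) = Fintype.card F ^ ((n - 1) * h) ∧
      ∀ z₁ ∈ Submodule.span F (Set.range z), ∀ z₂ ∈ Submodule.span F (Set.range z), hfh Q z₁ z₂ = 0)).card ≤
    (Fintype.card J + 1) ^ (2 * ((n - 1) * h)) *
      Fintype.card F ^ (6 * ((n - 1) * h) ^ 2 + ((n - 1) * h - 1) * Fintype.card J)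

/-- **JOB GL-KLU.** The moments in the unitary case. The diagonal, the weights and the entries with an index in `S` are fixed;
only the entries in `Sᶜ × Sᶜ` are random. (`t_KLU (h1 : S_KUO) (h2 : S_KUG) (h3 : S_KUI) (h4 : S_KUR) : S_KLU`. GJ: LAU,
`Pool/Agent/Q241/GJ/LAU.lean`, proves the upper bound for `h = 1`.)
Proof. `h = 0` is trivial (`NS F 0 0 = 1`); let `h ≥ 1`, `m = (n - 1) h`, `σ = |S|`, `λ = |Sᶜ|`. By `Gen` (there is a `φ`) `λ ≥ 4nhσ + M`, so
`mσ ≤ nhσ ≤ λ/4`. By KUO the mean is `f^(-m|J|) ∑_z ts (…)` over the `z : J → V^h` with `⟨z_i, z_j⟩ = 0` for `i ≠ j`, `i, j ∉ S`.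
(I) the `z` for which the span `W` of the `z_i`, `i ∉ S`, is not (totally isotropic with `f^m` elements): by KUR the contribution
is at most `(λ+1)^(2m) f^(6m² + (m-1)λ) f^(2mσ)/f^(m(σ+λ)) = (λ+1)^(2m) f^(6m² + mσ - λ) ≤ (λ+1)^(2m) f^(6m² - 3λ/4)`, which tends to
`0` as `λ ≥ M → ∞`. (II) the others: `∑_U ∑_(z : W = U)`; for each `U` the sum over `W = U` is the sum `T_U` over all `z_Λ ∈ U^Λ`
minus the sum over the `z_Λ ∈ U^Λ` with `W ≠ U`, contained in one of the at most `f^m` hyperplanes of `U`: at most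
`f^m f^((m-1)λ) f^(2mσ)`; at most `f^(2m²)` subspaces `U`: contribution at most `f^(m + 2m² + mσ - λ)`, tiny.
(III.a) if some `gxh Q x`, `x` symmetric, does not vanish on `U`: by `Gen` as in LAU at least `4nhσ + M` of the `j ∉ S` have
`gxh Q (x j) ≠ 0` on `U`, so by KUG (2) `|T_U| ≤ f^(2mσ) f^(mλ) Q^(-4nhσ-M)`; the sum over the `U` divided by `f^(m(σ+λ))` is at most
`f^(2m² + mσ) Q^(-4nhσ-M) ≤ Q^(4m² - M)`, tiny. (III.b) if all `gxh Q x = 0` on `U` (KUI: the number of these `U` is the sum in the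
statement) then `T_U = f^(m(σ+λ))`: as in LAU, by KUG (1) the factors of the `j ∉ S` are `|U|` if `Z_j = ∑_(κ∈S) B̄_κj z_κ ∈ U^⊥ = U` and
`0` if not, by `inj` all `z_κ ∈ U`, and then the part of `S` is `1`. So the contribution of `U` is exactly `1`. -/
def S_KLU : Prop := ∀ (F : Type) [Field F] [Fintype F] [Algebra F2 F] (Q : ℕ),
  Fintype.card F = Q ^ 2 → ∀ n h : ℕ, Odd n → 3 ≤ n → ∀ ε : ℝ, 0 < ε → ∃ M : ℕ,
  ∀ (J : Type) [Fintype J] [LinearOrder J]
  (S : Finset J) (B : J → J → F) (dd : J → F) (x : J → Fin n → Fin n → F2), (∀ i, Sy (x i)) →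
  (∀ i j, B j i = B i j ^ Q) → (∀ i, dd i ^ Q = dd i) →
  (∀ v : J → F, (∀ i, i ∉ S → v i = 0) → (∀ j, j ∉ S → ∑ i, v i * B i j = 0) → v = 0) →
  Gen Sᶜ x (4 * n * h * S.card + M) →
  |∑ s : J → J → F, (Nat.card (Kn (HU S B Q s) dd x) : ℝ) ^ h -
      (∑ t ∈ range (h + 1), (NS F h t : ℝ) * (Q : ℝ) ^ (t ^ 2)) * (Fintype.card (J → J → F) : ℝ)| ≤
    ε * (Fintype.card (J → J → F) : ℝ)

/-! ### the other case -/

/-- **JOB GL-KLG.** The moments for a matrix without symmetry (all the entries in `Sᶜ × Sᶜ` are random and independent).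
(GJ: LAG, `Pool/Agent/Q241/GJ/LAG.lean`, proves the upper bound for `h = 1`.) `Λ = Sᶜ`, `σ = |S|`, `λ = |Λ| ≥ 4nhσ + M`,
`m = (n - 1) h`, `mσ ≤ λ/4`, `𝓦 = Fin h → W0 n F` (dimension `m`), `lap x` acts on it componentwise.
Proof. The mean is `∑_w p(w)` over the `w : J → 𝓦`, `p(w)` = the probability (over `s`) that `w` solves the system. The rows are
independent; the rows `κ ∈ S` are fixed. For `i ∈ Λ` the `i`-th equation says that the random vector `∑_(j∈Λ, j≠i) s_ij w_j` has a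
given value: probability `0` or `f^(-ρ_i)`, `ρ_i = dim span {w_j : j ∈ Λ, j ≠ i}`. Let `L = span {w_j : j ∈ Λ}`, `ρ = dim L`,
`C = {i ∈ Λ : ρ_i < ρ}` (then `ρ_i = ρ - 1`), `c = |C|`. (1) `c ≥ 1`: given `ρ ≤ m` and `c` the contribution is at most
`λ^c f^(mρ + mσ + c - cλ) ≤ f^(m² + mσ) (λ f^(1-λ))^c` (see LAG), at most `(m+1)²` pairs `(ρ, c)`... and `f ≥ 2`: tiny. (2) `c = 0` and
`L` not stable under some `lap x`, `x` symmetric: the set of the symmetric `x` with `lap x L ⊆ L` is a proper subspace over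
`F2`, so contained in `{pai φ = 0}` for some `φ` with `φ l l' ≠ 0` for some `l < l'`, and by `Gen` at least `4nhσ + M` of the
`i ∈ Λ` have `lap (x i) L ⊄ L`; for these `i` the `i`-th equation modulo `L` determines `w_i ∈ L` modulo the proper subspace
`{w ∈ L : lap (x i) w ∈ L}` given `w_S`. So the contribution is at most `f^(mρ) f^(mσ) f^(ρλ - 4nhσ - M)/f^(ρλ) ≤ f^(m² - M)`, for
each `ρ ≤ m`. (3) `c = 0` and `L` stable under all the `lap x`: these `L` are exactly the `{w | w_l ∈ L' for all l}`, `L'` a subspace of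
`F^h` (`w_l = (w_(c,l))_c ∈ F^h`): their number is `∑_(t ≤ h) NS F h t`. (If `L` is stable, take for `x` the indicator of the pair
`l, l'`: `lap x w = (w_l + w_l') ⊗ (e_l + e_l')`; as in LAG (2) then `(w_l + w_l') ⊗ (e_a + e_b) ∈ L` for all `w ∈ L`, `a ≠ b`, so
`L' := ` the span of the `w_l + w_l'` (`w ∈ L`, `l ≠ l'`) has `W0 ⊗ L' ⊆ L`, and `w_l = ∑_(l') (w_l + w_l') ∈ L'` as `n` is odd.) For
given `L` of this kind with `ρ = dim L`: in a solution all `∑_(κ∈S) B_iκ w_κ ∈ L`, `i ∈ Λ`, so all `w_κ ∈ L` by `inj2` (apply linear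
forms vanishing on `L`); conversely for `w_S ∈ L^S`, `w_Λ ∈ L^Λ` without coloops (`c = 0`, span `L`) which satisfy the rows
`κ ∈ S`: `p = f^(-ρλ)`. The rows `κ ∈ S` prescribe `∑_(j∈Λ) B_κj w_j`, and `w_Λ ↦ (∑_j B_κj w_j)_κ`, `L^Λ → L^S`, is surjective by
`inj1`: so the number of `(w_S, w_Λ) ∈ L^S × L^Λ` which satisfy these rows is `f^(ρσ) f^(ρ(λ-σ)) = f^(ρλ)`, total contribution `1`, up
to those with coloops or span `≠ L`: `w_Λ` has then all its `w_j` except at most one in a hyperplane of `L`: at most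
`(λ+1) f^ρ f^ρ f^((ρ-1)λ) f^(ρσ)` of them (and none for `ρ = 0`), so the error is at most `(λ+1) f^(2m + mσ - λ)`, tiny. -/
def S_KLG : Prop := ∀ (F : Type) [Field F] [Fintype F] [Algebra F2 F],
  ∀ n h : ℕ, Odd n → 3 ≤ n → ∀ ε : ℝ, 0 < ε → ∃ M : ℕ,
  ∀ (J : Type) [Fintype J] (S : Finset J) (B : J → J → F) (dd : J → F)
  (x : J → Fin n → Fin n → F2), (∀ i, Sy (x i)) →
  (∀ v : J → F, (∀ i, i ∉ S → v i = 0) → (∀ j, j ∉ S → ∑ i, v i * B i j = 0) → v = 0) →
  (∀ v : J → F, (∀ i, i ∉ S → v i = 0) → (∀ j, j ∉ S → ∑ i, v i * B j i = 0) → v = 0) →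
  Gen Sᶜ x (4 * n * h * S.card + M) →
  |∑ s : J → J → F, (Nat.card (Kn (HG S B s) dd x) : ℝ) ^ h -
      (∑ t ∈ range (h + 1), (NS F h t : ℝ)) * (Fintype.card (J → J → F) : ℝ)| ≤
    ε * (Fintype.card (J → J → F) : ℝ)

/-! ### from the moments to the law -/

/-- the number of the injective homomorphisms from `F ^ t` to a space with `x` elements, `q = |F|` -/
noncomputable def ij (q : ℝ) (t : ℕ) (x : ℝ) : ℝ := ∏ i ∈ range t, (x - q ^ i)

/-- **JOB GL-POW.** Powers and numbers of injective homomorphisms.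
Proof. The number of the linear maps `F^j → F^h` is `f^(jh)`. Count them by their image `T`, `dim T = t`: there are `NS F h t` spaces
`T`, and the number of the surjective maps `F^j → F^t` is the number of the `t × j` matrices of rank `t`, that is with linearly
independent rows: `∏_(i<t) (f^j - f^i)` (`card_linearIndependent` in Mathlib). -/
def S_POW : Prop := ∀ (F : Type) [Field F] [Fintype F] (h j : ℕ),
  ((Fintype.card F : ℝ) ^ j) ^ h =
    ∑ t ∈ range (h + 1), (NS F h t : ℝ) * ij (Fintype.card F) t ((Fintype.card F : ℝ) ^ j)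

/-- `p` is a law on the natural numbers with the moments `c` -/
structure IsLw (q : ℝ) (p c : ℕ → ℝ) : Prop where
  nn : ∀ j, 0 ≤ p j
  mom : ∀ t, HasSum (fun j => p j * ij q t (q ^ j)) (c t)

/-- **JOB GL-BON.** The law is determined by the moments, effectively (Bonferroni inequalities).
Proof. `g_i = ij q i (q^i) > 0`, `[j, i] = ij q i (q^j)/g_i` (the Gaussian binomial coefficient; `ij q i (q^j) = 0` for the natural numbers
`j < i`). For natural numbers `N`, `m`: `∑_(i≤m) (-1)^i q^(i(i-1)/2) [N, i] = (-1)^m q^(m(m+1)/2) [N-1, m]` if `N ≥ 1`, `1` if `N = 0` (induction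
on `m`, Pascal rule `[N, i] = [N-1, i-1] + q^i [N-1, i]`; note `[N-1, m] ≥ 0`). And `[j, t+i] [t+i, t] = [j, t] [j-t, i]`. So for
`S_m(j) = ∑_(i≤m) (-1)^i q^(i(i-1)/2) [t+i, t] [j, t+i]`: `S_m(j) = 1_(j=t)` if `j ≤ t`, and `S_m(j) = (-1)^m · (something ≥ 0)` if `j > t`:
for even `m` `S_(m+1)(j) ≤ 1_(j=t) ≤ S_m(j)`. The mean of `S_m(X)` over `Ω` is a fixed linear combination of the means of the
`ij q i (q^X)`, `i ≤ t + m`, and the same combination of the `c i` is `∑_j p j S_m(j)`. So with `H = t + m + 1` and small `δ` both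
`#{X = t}/#Ω` and `p t` are, up to `ε/2`, between `σ_(m+1)` and `σ_m`, `σ_m = ∑_(i≤m) (-1)^i q^(i(i-1)/2) [t+i, t] c_(t+i)/g_(t+i)`. Their
difference is `q^(m(m+1)/2) [s, t] |c_s|/g_s`, `s = t + m + 1`; `|c_s| ≤ C' q^(s²/2)`, `g_s = q^(s²) ∏_(i=1)^s (1 - q^(-i)) ≥ κ q^(s²)`,
`[s, t] ≤ κ' q^(t(s-t))`: at most `C'' q^(m(m+1)/2 + t(m+1) - s²/2) = C'' q^(-(m+1)/2 - t²/2)`, which tends to `0`. -/
def S_BON : Prop := ∀ q : ℝ, 1 < q → ∀ p c : ℕ → ℝ, IsLw q p c → (∃ C : ℝ, ∀ t, c t ^ 2 ≤ C * q ^ (t ^ 2)) →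
  ∀ (t : ℕ) (ε : ℝ), 0 < ε → ∃ (H : ℕ) (δ : ℝ), 0 < δ ∧ ∀ (Ω : Type) [Fintype Ω] (X : Ω → ℕ),
  (∀ i ≤ H, |∑ ω, ij q i (q ^ X ω) - c i * Fintype.card Ω| ≤ δ * Fintype.card Ω) →
  |(((univ.filter fun ω => X ω = t).card : ℕ) : ℝ) - p t * Fintype.card Ω| ≤ ε * Fintype.card Ω

/-- **JOB GL-LMO.** The law from the moments. (`t_LMO (h1 : S_POW) (h2 : S_BON) : S_LMO`.)
Proof. By POW `∑_ω f^(X h) = ∑_(s≤h) NS F h s ∑_ω ij f s (f^X)`, `NS F h h = 1`: induction on `h` gives that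
`∑_ω ij f h (f^X)` is close to `c h |Ω|` for all `h ≤ H` (`δ` small in terms of `H`, `F`), then BON. -/
def S_LMO : Prop := ∀ (F : Type) [Field F] [Fintype F] (p c : ℕ → ℝ), IsLw (Fintype.card F) p c →
  (∃ C : ℝ, ∀ t, c t ^ 2 ≤ C * (Fintype.card F : ℝ) ^ (t ^ 2)) →
  ∀ (t : ℕ) (ε : ℝ), 0 < ε → ∃ (H : ℕ) (δ : ℝ), 0 < δ ∧ ∀ (Ω : Type) [Fintype Ω] (X : Ω → ℕ),
  (∀ h ≤ H, |∑ ω, ((Fintype.card F : ℝ) ^ X ω) ^ h -
      (∑ s ∈ range (h + 1), (NS F h s : ℝ) * c s) * Fintype.card Ω| ≤ δ * Fintype.card Ω) →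
  |(((univ.filter fun ω => X ω = t).card : ℕ) : ℝ) - p t * Fintype.card Ω| ≤ ε * Fintype.card Ω

/-- **JOB GL-NMU.** Euler's identity.
Proof. `φ(z) = ∏_(i≥0) (1 + z x^(2i+1))` satisfies `φ(z) = (1 + z x) φ(z x²)`; the series
`ψ(z) = ∑_m x^(m²) z^m/∏_(i<m) (1 - x^(2(i+1)))` satisfies the same equation (compare the coefficients), `ψ(0) = 1`, and both are
continuous at `0`: iterate. Or: finite form (`q`-binomial theorem) and dominated convergence. -/
def S_NMU : Prop := ∀ x : ℝ, 0 ≤ x → x < 1 →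
  HasSum (fun m : ℕ => x ^ (m ^ 2) / ∏ i ∈ range m, (1 - x ^ (2 * (i + 1)))) (∏' i : ℕ, (1 + x ^ (2 * i + 1)))

/-- **JOB GL-NMN.** The Durfee type identity.
Proof. Finite form: `[A + B, A] = ∑_m x^(m(m+t)) [A, m + t] [B, m]`... precisely, with the Gaussian binomials in `x`,
`[A + B, B + t] = ∑_m x^(m (m + t)) [A, m + t] [B, m]` (`q`-Vandermonde; `x^(m(m+t))`: choose `m` and `m + t`); let `A, B → ∞`
(dominated convergence; `[A, i] → 1/∏_(j≤i) (1 - x^j)`, `[A + B, B + t] → 1/∏_j (1 - x^j)`). Or: number of partitions by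
their Durfee rectangle of sides `m`, `m + t`. Or: with `S_t` the left side, show that `S_t - S_(t+1)` has a recursion and
`S_t → 1/∏ (1 - x^j)` as `t → ∞`. Choose what is easiest. -/
def S_NMN : Prop := ∀ x : ℝ, 0 ≤ x → x < 1 → ∀ t : ℕ,
  HasSum (fun m : ℕ => x ^ (m * (m + t)) /
    ((∏ i ∈ range m, (1 - x ^ (i + 1))) * ∏ i ∈ range (m + t), (1 - x ^ (i + 1))))
    (∏' i : ℕ, (1 - x ^ (i + 1)))⁻¹

/-- the law in the unitary case -/
noncomputable def lawU (Q : ℝ) (j : ℕ) : ℝ :=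
  (∏' i : ℕ, (1 + Q⁻¹ ^ (2 * i + 1)))⁻¹ * Q⁻¹ ^ (j ^ 2) / ∏ i ∈ range j, (1 - Q⁻¹ ^ (2 * (i + 1)))

/-- the law in the other case -/
noncomputable def lawN (q : ℝ) (j : ℕ) : ℝ :=
  (∏' i : ℕ, (1 - q⁻¹ ^ (i + 1))) * q⁻¹ ^ (j ^ 2) / (∏ i ∈ range j, (1 - q⁻¹ ^ (i + 1))) ^ 2

/-- the law for the order `r` -/
noncomputable def lawR (r : ℕ) : ℕ → ℝ :=
  if Un r then lawU (2 ^ (orderOf (2 : ZMod r) / 2)) else lawN (2 ^ orderOf (2 : ZMod r))

/-- **JOB GL-LWU.** The moments of the first law. (`t_LWU (h : S_NMU) : S_LWU`.)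
Proof. `x = 1/Q`. `ij (Q²) t (Q^(2j)) = ∏_(l<t) (Q^(2j) - Q^(2l)) = Q^(2tj) ∏_(l<t) (1 - x^(2(j-l)))` for `j ≥ t`, `0` for `j < t`. So the term
for `j = t + m` is `c Q^(-j² + 2tj)/∏_(i<m) (1 - x^(2(i+1))) = Q^(t²) · c x^(m²)/∏_(i<m) (1 - x^(2(i+1)))`, `c = 1/∏ (1 + x^(2i+1))`: NMU. Positivity
of the product (`∏ (1 + x^(2i+1)) ≥ 1`). -/
def S_LWU : Prop := ∀ Q : ℝ, 1 < Q → (∀ j, 0 < lawU Q j) ∧
  IsLw (Q ^ 2) (lawU Q) (fun t => Q ^ (t ^ 2)) ∧ HasSum (lawU Q) 1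

/-- **JOB GL-LWN.** The moments of the second law. (`t_LWN (h : S_NMN) : S_LWN`.)
Proof. `x = 1/q`. `ij q t (q^j) = q^(tj) ∏_(l<t) (1 - x^(j-l))` for `j ≥ t`, `0` for `j < t`; for `j = t + m`:
`-j² + tj = -m(m + t)`, so the term is `c x^(m(m+t))/((∏_(i<m) (1 - x^(i+1))) (∏_(i<m+t) (1 - x^(i+1))))`, `c = ∏ (1 - x^(i+1)) > 0`: NMN. -/
def S_LWN : Prop := ∀ q : ℝ, 1 < q → (∀ j, 0 < lawN q j) ∧
  IsLw q (lawN q) (fun _ => 1) ∧ HasSum (lawN q) 1

/-! ### the model of a cell -/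

section model

variable {ι : Type} [LinearOrder ι] [Fintype ι] (d : ι → ℕ) (mv : Finset ι)
variable {F : Type} [Field F] [Algebra F2 F] {n : ℕ}

/-- the data for the order `r` are good, with parameters `C`, `M` -/
structure NiceC (C M r : ℕ) (Fx : ι → ι → F) (x : ι → Fin n → Fin n → F2) : Prop where
  inj1 : ∀ v : ι → F, (∀ i, ¬ (i ∉ mv ∧ r ∣ d i) → v i = 0) →
    (∀ j ∈ mv, r ∣ d j → ∑ i, v i * Fx i j = 0) → v = 0
  inj2 : ∀ v : ι → F, (∀ i, ¬ (i ∉ mv ∧ r ∣ d i) → v i = 0) →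
    (∀ j ∈ mv, r ∣ d j → ∑ i, v i * Fx j i = 0) → v = 0
  gen : Gen (mv.filter fun i => r ∣ d i) x
    (C * ((univ : Finset ι).filter fun i => i ∉ mv ∧ r ∣ d i).card + M)

end model

/-- **JOB GL-KLR.** The kernels for different roots of unity are independent, with the laws `lawR`, given the trivial symbols.
(`t_KLR (h1 : S_KLU) (h2 : S_KLG) (h3 : S_LMO) (h4 : S_LWU) (h5 : S_LWN) (h6 : Pool.Agent.Q269.GJ.S_SUR)
(h7 : Pool.Agent.Q269.GR.S_UNR) : S_KLR`. GJ: `t_LAR`, `Pool/Agent/Q151/GJ/LAR.lean`, where the conditional independence is proved.)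
Proof. As in LAR: the map `s ↦ (A_ij)_(i<j in mv), (ev ξ_c (s i j), ev ξ_c⁻¹ (s i j))_(i<j in mv, c, r c ∣ d i, r c ∣ d j)` is a
surjective homomorphism onto the product of the value sets, so given the trivial symbols `(A_ij)` the families for the
different `c` are independent and uniform (Hermitian for `Un (r c)`, arbitrary pairs otherwise). The kernel for `c` depends on the
family for `c` and on `A` only. For each fixed `A` and `c` the moments `∑ #Kn^h`, `h ≤ H`, of the kernel are by KLU / KLG (with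
`J = {i // r c ∣ d i}`, `S` = the indices not in `mv`) as close as we like to those of the law `lawR (r c)` (LWU with
`Q = 2^(f/2)`, `Q² = |F c|`, resp. LWN with `q = |F c|`; `#Kn = |F c|^(finrank Kn)`), provided that `C = 4nH` and `M` is large; so by
LMO the proportion of `finrank Kn = τ c` is within `δ` of `lawR (r c) (τ c)`. Products: `|∏ x_c - ∏ y_c| ≤ ∑ |x_c - y_c|` for numbers
in `[0, 1]` (`lawR ≤ 1` as `HasSum (lawR r) 1`), `δ = ε/(|κ| + 1)`. Sum over the `A` with `f A`. -/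
def S_KLR : Prop := ∀ n : ℕ, Odd n → 3 ≤ n → ∀ (κ : Type) [Fintype κ] (r : κ → ℕ)
  (F : κ → Type) [∀ c, Field (F c)] [∀ c, Fintype (F c)] [∀ c, Algebra F2 (F c)] (ξ : ∀ c, F c),
  (∀ c, IsRt (r c) (ξ c)) → Ncj ξ → ∀ (τ : κ → ℕ) (ε : ℝ), 0 < ε → ∃ C M : ℕ,
  ∀ (ι : Type) [Fintype ι] [LinearOrder ι] (N : ℕ) (d : ι → ℕ) (mv : Finset ι),
  Odd N → (∀ c, r c ∣ N) →
  ∀ (A0 : ι → ι → F2) (Fx : ∀ c, ι → ι → F c) (ow : ∀ c, ι → F c) (x : ι → Fin n → Fin n → F2),
  (∀ i, Sy (x i)) → (∀ c, Herm d mv (r c) (Fx c) (ow c)) → (∀ c, NiceC d mv C M (r c) (Fx c) x) →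
  ∀ f : (ι → ι → F2) → Prop,
  |(((univ : Finset (Bt N d)).filter (fun s => f (AA N d mv A0 s) ∧
      ∀ c, Module.finrank (F c) (KM N d mv (r c) A0 (Fx c) (ow c) x (ξ c) s) = τ c)).card : ℝ) -
    (∏ c, lawR (r c) (τ c)) * (((univ : Finset (Bt N d)).filter (fun s => f (AA N d mv A0 s))).card : ℝ)| ≤
  ε * (((univ : Finset (Bt N d)).filter (fun s => f (AA N d mv A0 s))).card : ℝ)

end Pool.Agent.Q269.GL
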