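import Pool.Agent.Q269.GL.StL
import Pool.Agent.Q269.GJ.StE

/-!
# Project GL: lemma jobs, cells and proportions

`q = Fintype.card k`. These jobs generalise jobs of project GJ (`Pool/Agent/Q269/GJ/StC.lean`, `StE.lean`; the statements are
written `GJ.S_…`, those of project GR `GR.S_…`; modules of their proofs: `Pool/Agent/Q269/GJ/Asm.lean` and
`Pool/Agent/Q269/GR/Asm0.lean`).
-/

set_option autoImplicit false
set_option linter.all false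

open scoped Classical
open Finset Polynomial

namespace Pool.Agent.Q269.GL

open Pool.Agent.Q269 (GR.S_PRD)
open Pool.Agent.Q269.GR (F2 cf ev Un Eb dl IsRt gg Bt AA ts HU HG Herm hv own Irn Dn pr Fr xi Pfam dg
  Ce IsCe sT erT FxR owR A0R tn XA XB)
open Pool.Agent.Q269.GJ (W0 lap eqn Kn Sy pai Gen KM KD KF xb xR Eqd sfx smv Hyn eT IsR AdmD GoodA OO tl)
open Pool.Agent.Y164.PS (L sg)
open Pool.Agent.Y164.HG (Geo Del)

/-- the bound for the probability that the data are not nice -/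
noncomputable def nnM {k : Type} [Field k] (C M n : ℕ) {m : ℕ} (P0 : Fin m → k[X]) (mv : Finset (Fin m))
    (r : ℕ) : ℝ := 2 ^ (n ^ 2 + 2 + (C + 2) * sfx P0 mv r + M) * (5 / 6) ^ smv P0 mv r

/-- **JOB GL-NIM.** Most elements of a cell have nice data, with parameters. (`t_NIM (h1 : GR.S_INJ) (h2 : GR.S_UNR)
(h3 : GR.S_SYP) (h4 : GR.S_IRC) (h5 : GR.S_PRD) : S_NIM`. GJ: `t_NIC1`, `Pool/Agent/Q198/GJ/NIC.lean`, only the threshold in `gen`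
changes.)
Proof. `σ = sfx P0 mv r`, `λ = smv P0 mv r ≥ σ`. `inj1`, `inj2` fail for a proportion of at most `2 · 4^σ 3^(-λ)`; `gen` fails for a
proportion of at most `2^(n²) 2^(Cσ + M) (5/6)^λ`. Total at most `(2 · 2^(2σ) + 2^(n² + Cσ + M)) (5/6)^λ ≤ nnM C M n P0 mv r`. -/
def S_NIM : Prop := ∀ C M : ℕ, ∀ (k : Type) [Field k] [Fintype k], ringChar k ≠ 2 → IsSquare (-1 : k) →
  5 ≤ Fintype.card k → ∀ (Δ : k[X]), Δ ≠ 0 → ∀ (n : ℕ), 0 < n → ∀ (a : Fin n → k[X]) (m : ℕ)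
  (P0 : Fin m → k[X]) (mv : Finset (Fin m)), IsCe Δ P0 mv → ∀ (r : ℕ) (F : Type) [Field F] [Fintype F]
  [Algebra F2 F] (ξ : F), IsRt r ξ → Hyn a P0 mv r →
  ((((Fintype.piFinset (Ce P0 mv)).filter fun T =>
      ¬ NiceC (dg P0) mv C M r (FxR r ξ T) (xR a T)).card : ℕ) : ℝ) ≤
    nnM C M n P0 mv r * (Fintype.piFinset (Ce P0 mv)).card

/-- **JOB GL-REF.** The dimensions of the kernels of the elements of a cell are given by the model.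
(`t_REF (h1 : GR.S_SYP) (h2 : GR.S_UNR) (h3 : GR.S_PRD) : S_REF`. GJ: `t_REA`, `Pool/Agent/Q190/GJ/REA.lean`: the proof there gives a
bijection, linear over `F`, by reindexing.) -/
def S_REF : Prop := ∀ (k : Type) [Field k] [Fintype k], ringChar k ≠ 2 → IsSquare (-1 : k) →
  ∀ (Δ : k[X]), Δ ≠ 0 → ∀ (n : ℕ) (a : Fin n → k[X]) (N m : ℕ) (P0 : Fin m → k[X]) (mv : Finset (Fin m)),
  0 < N → IsCe Δ P0 mv → ∀ T ∈ Fintype.piFinset (Ce P0 mv),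
  ∀ (r : ℕ) (F : Type) [Field F] [Fintype F] [Algebra F2 F] (ξ : F), IsRt r ξ → r ∣ N →
    Module.finrank F (KM N (dg P0) mv r (A0R T) (FxR r ξ T) (owR r ξ T) (xR a T) ξ (sT N P0 T)) =
      Module.finrank F (KD r ξ a (∏ i, T i))

/-- **JOB GL-CNF.** Conjugate and inverse roots of unity. (`t_CNF (h1 : GR.S_SYP) (h2 : GR.S_UNR) (h3 : GR.S_PRD) : S_CNF`.
GJ: `t_CNJ`, `Pool/Agent/Q52/GJ/CNJ.lean`.)
Proof. (1) `w ↦ w²` (coordinatewise) is a bijection of `KD r ξ` onto `KD r (ξ²)` (docstring of `GJ.S_CNJ`), so the two have the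
same number of elements `|F|^(dim)`. (2) The matrix of the system for `ξ⁻¹` is the transpose of that for `ξ` with respect to
the nondegenerate dot product on `J → W0 n F`: the kernels of an endomorphism of a finite dimensional space and of its adjoint
have the same dimension. -/
def S_CNF : Prop := ∀ (k : Type) [Field k] [Fintype k], ringChar k ≠ 2 → IsSquare (-1 : k) →
  ∀ (Δ : k[X]), Δ ≠ 0 → ∀ n : ℕ, Odd n → ∀ (a : Fin n → k[X]) (m : ℕ), ∀ D ∈ Dn Δ m,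
  ∀ (r : ℕ) (F : Type) [Field F] [Fintype F] [Algebra F2 F] (ξ : F), IsRt r ξ →
  Module.finrank F (KD r (ξ ^ 2) a D) = Module.finrank F (KD r ξ a D) ∧
  Module.finrank F (KD r ξ⁻¹ a D) = Module.finrank F (KD r ξ a D)

/-- **JOB GL-CLL.** The law of the dimensions in a cell, for finitely many roots of unity, inside the set defined by
an admissible property `f`. (`t_CLL (h1 : GR.S_TRF) (h2 : GJ.S_REA) (h2' : S_REF) (h3 : S_NIM) (h4 : S_KLR) (h5 : GR.S_PRD)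
(h6 : GR.S_XIR) (h7 : GR.S_SYP) (h8 : GR.S_UNR) : S_CLL`. GJ: `t_CLA`, `Pool/Agent/Q53/GJ/CLA.lean`, the lower bound for `τ = 0`.)
Proof. `C`, `M` from KLR with `κ = {p // p ∈ R}`, `r p = p.1`, `F p = Fr p.1`, `ξ p = xi p.1 ^ p.2`. `𝒞 = piFinset (Ce P0 mv)`. The types,
`f'(T, A)`, `Ψ₂ T s := f'(T, AA (A0R T) s)` as in the docstring of `GJ.S_CLA`, and
`Ψ₁ T s := f'(T, AA (A0R T) s) ∧ ∀ p, finrank (KM …) = τ p`. `Ψ₁ T (sT T) ↔ f (∏ T) ∧ ∀ p ∈ R, finrank (KD …) = τ p` (REA, REF). With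
`e = erT N P0 mv (2^eT)`, `ν = ∑_(p∈R) nnM`, `π = ∏ lawR p.1 (τ p) ∈ [0, 1]`: `|#{Ψ₁ T (sT T)} - ∑_T #{s | Ψ₁ T s}/#Bt| ≤ e |𝒞|` (TRF), for the `T` with
nice data `|#{s | Ψ₁ T s} - π #{s | Ψ₂ T s}| ≤ ε #Bt` (KLR), the others are at most `ν |𝒞|` (NIM), and
`|∑_T #{s | Ψ₂ T s}/#Bt - #{T | f (∏ T)}| ≤ e |𝒞|` (TRF). -/
def S_CLL : Prop := ∀ n : ℕ, Odd n → 3 ≤ n → ∀ R : Finset (ℕ × ℕ), IsR R → ∀ (τ : ℕ × ℕ → ℕ) (ε : ℝ), 0 < ε →
  ∃ C M : ℕ, ∀ (k : Type) [Field k] [Fintype k], ringChar k ≠ 2 → IsSquare (-1 : k) →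
  5 ≤ Fintype.card k → ∀ (Δ : k[X]), Δ ≠ 0 → ∀ (a : Fin n → k[X]) (N m : ℕ)
  (P0 : Fin m → k[X]) (mv : Finset (Fin m)), IsCe Δ P0 mv → Odd N →
  (∀ p ∈ R, p.1 ∣ N) → (∀ p ∈ R, Hyn a P0 mv p.1) → ∀ f : k[X] → Prop, AdmD Δ f →
  |(((Fintype.piFinset (Ce P0 mv)).filter fun T => f (∏ i, T i) ∧
      ∀ p ∈ R, Module.finrank (Fr p.1) (KD p.1 (xi p.1 ^ p.2) a (∏ i, T i)) = τ p).card : ℝ) -
    (∏ p ∈ R, lawR p.1 (τ p)) * (((Fintype.piFinset (Ce P0 mv)).filter fun T => f (∏ i, T i)).card : ℝ)| ≤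
  (ε + ∑ p ∈ R, nnM C M n P0 mv p.1 + 2 * erT N P0 mv (2 ^ eT n Δ m R)) *
    (Fintype.piFinset (Ce P0 mv)).card

/-- **JOB GL-ENL.** The law of the dimensions, for finitely many roots of unity. (`t_ENL (h1 : S_CLL) (h2 : GR.S_DEC)
(h3 : GR.S_TYA) (h4 : GR.S_ERA) (h5 : GJ.S_GEN) (h6 : GR.S_TNP) (h7 : GR.S_PRD) (h8 : GR.S_AVP) (h9 : S_LWU) (h10 : S_LWN) : S_ENL`.
GJ: `t_ENA`, `Pool/Agent/Q224/GJ/ENA.lean`.)
Proof. As `GJ.S_ENA`, with `C`, `M` of CLL for `ε/4`: in a cell of `X = XA Δ m` (`t = tn m → ∞`) `sfx ≤ t/100`, `smv ≥ t²/8`, so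
`nnM ≤ 2^(n² + 2 + (C+2) t/100 + M) (5/6)^(t²/8) → 0` and `erT → 0`. DEC twice: with `φ = 1_(f ∧ dims = τ)`, `ψ = π 1_f + ε/2`, and with
`φ = π 1_f`, `ψ = 1_(f ∧ dims = τ) + ε/2`, `π = ∏ lawR ∈ [0, 1]`; and TYA. -/
def S_ENL : Prop := ∀ (k : Type) [Field k] [Fintype k] (n : ℕ) (a : Fin n → k[X]) (N : ℕ), Geo a N →
  5 ≤ Fintype.card k → ∀ R : Finset (ℕ × ℕ), IsR R → ∀ (τ : ℕ × ℕ → ℕ) (ε : ℝ), 0 < ε →
  ∀ᶠ m : ℕ in Filter.atTop, ∀ f : k[X] → Prop, AdmD (Del a) f →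
  |(((Dn (Del a) m).filter fun D => f D ∧
      ∀ p ∈ R, Module.finrank (Fr p.1) (KD p.1 (xi p.1 ^ p.2) a D) = τ p).card : ℝ) -
    (∏ p ∈ R, lawR p.1 (τ p)) * (((Dn (Del a) m).filter fun D => f D).card : ℝ)| ≤
  ε * (Fintype.card k : ℝ) ^ m

/-! ### representatives of the roots of unity -/

/-- `v ≡ ± 2 ^ i u` modulo `r` for some `i` -/
def Cj (r u v : ℕ) : Prop := ∃ i : ℕ, v ≡ 2 ^ i * u [MOD r] ∨ r ∣ v + 2 ^ i * u

/-- the least representatives of the classes of the units modulo `r`, up to `± 2 ^ i` -/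
noncomputable def rp (r : ℕ) : Finset ℕ :=
  (range r).filter fun u => Nat.Coprime u r ∧ ∀ v < u, Nat.Coprime v r → ¬ Cj r v u

/-- **JOB GL-RPX.** Representatives. (`t_RPX (h : GR.S_XIR) : S_RPX`.)
Proof. (1) Two elements of order `r` and `r'` of `Fr r`, `Fr r'` with the same minimal polynomial over `F2` have the same order (the
roots of an irreducible polynomial are conjugate), so `r = r'`; the roots of the minimal polynomial of `xi r ^ u` are the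
`xi r ^ (2^i u)`; `xi r ^ v = xi r ^ (2^i u)` iff `v ≡ 2^i u` modulo `r`; and `(xi r ^ v)⁻¹ = xi r ^ (2^i u)` iff `r ∣ v + 2^i u` (see the proofs
in `Pool/Agent/Q52/GJ/RPS.lean`). (2) `Cj r` is an equivalence relation on the units; least elements. (3) The classes are the
cosets of the subgroup `{± 2^i}` of the units modulo `r`, of order `f = orderOf (2 : ZMod r)` if `-1` is a power of `2` (`Un r`), `2 f`
otherwise (`r > 2`). -/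
def S_RPX : Prop :=
  (∀ R : Finset (ℕ × ℕ), (∀ p ∈ R, Odd p.1 ∧ 1 < p.1 ∧ Nat.Coprime p.2 p.1) →
    (∀ p ∈ R, ∀ p' ∈ R, p ≠ p' → p.1 = p'.1 → ¬ Cj p.1 p.2 p'.2) → IsR R) ∧
  (∀ r : ℕ, Odd r → 1 < r → ∀ u : ℕ, Nat.Coprime u r → ∃ v ∈ rp r, Cj r v u) ∧
  (∀ r : ℕ, Odd r → 1 < r → ∀ u ∈ rp r, ∀ v ∈ rp r, Cj r u v → u = v) ∧
  (∀ r : ℕ, Odd r → 1 < r → (rp r).card * (if Un r then orderOf (2 : ZMod r) else 2 * orderOf (2 : ZMod r)) =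
    Nat.totient r)

/-- **JOB GL-CJD.** The dimension depends only on the class. (`t_CJD (h1 : S_CNF) (h2 : GR.S_XIR) (h3 : GR.S_UNR) : S_CJD`.)
Proof. `xi r ^ v = (xi r ^ u) ^ (2^i)` or its inverse; CNF `i` times (`IsRt r` of the powers and inverses: UNR). -/
def S_CJD : Prop := ∀ (k : Type) [Field k] [Fintype k], ringChar k ≠ 2 → IsSquare (-1 : k) →
  ∀ (Δ : k[X]), Δ ≠ 0 → ∀ n : ℕ, Odd n → ∀ (a : Fin n → k[X]) (m : ℕ), ∀ D ∈ Dn Δ m,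
  ∀ r u v : ℕ, Odd r → 1 < r → Nat.Coprime u r → Cj r u v →
  Module.finrank (Fr r) (KD r (xi r ^ v) a D) = Module.finrank (Fr r) (KD r (xi r ^ u) a D)

/-- the orders in a set `T` -/
def Td (T : Set ℕ) (r : ℕ) : Prop := r ∈ T ∧ 1 < r

/-- the infinite product of the probabilities that nothing occurs -/
noncomputable def PT (T : Set ℕ) : ℝ := ∏' r : {r : ℕ // Td T r}, lawR r.1 0 ^ (rp r.1).card

/-- the odd orders for which the order of `2` is not too small, up to finitely many exceptions -/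
def Adt (T : Set ℕ) : Prop := (∀ r ∈ T, Odd r) ∧ ∃ R : ℕ, ∀ r ∈ T, R < r → r ^ 8 ≤ 2 ^ orderOf (2 : ZMod r)

/-- **JOB GL-TPR.** The infinite product. (`t_TPR (h1 : GJ.S_SMD) (h2 : GR.S_ORD) (h3 : S_LWU) (h4 : S_LWN) (h5 : S_RPX) : S_TPR`.)
Proof. `0 < lawR r 0 ≤ 1` and `1 - lawR r 0 ≤ C 2^(-f/2)`, `f = orderOf (2 : ZMod r)` (`∏ (1 + Q^(-2i-1))⁻¹ ≥ 1 - ∑ Q^(-2i-1) ≥ 1 - 2/Q`, `Q = 2^(f/2)`;
`∏ (1 - q^(-i-1)) ≥ 1 - 2/q`), `#rp r ≤ r`, `1 - x^(#rp) ≤ r (1 - x)`, and for `r > R` in `T`: `r 2^(-f/2) ≤ 2^(f/8 - f/2)`: summable by ORD. So the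
product converges (unconditionally), is positive, and is the limit of the partial products over `r ≤ y`. -/
def S_TPR : Prop := ∀ T : Set ℕ, Adt T → 0 < PT T ∧ Filter.Tendsto
  (fun y : ℕ => ∏ r ∈ (range (y + 1)).filter (Td T), lawR r 0 ^ (rp r).card) Filter.atTop (nhds (PT T))

/-- **JOB GL-INF.** The proportion for an infinite set of orders. (`t_INF (h1 : S_ENL) (h2 : GJ.S_EB1) (h3 : GJ.S_EB2)
(h4 : S_RPX) (h5 : S_CJD) (h6 : S_TPR) (h7 : GJ.S_ABS) (h8 : GR.S_PRD) (h9 : GR.S_XIR) (h10 : GR.S_AVP) : S_INF`.)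
Proof. `R` as in `Adt`, then `r ∈ T`, `1 < r` implies `OO R r`. `GoodA r a D` iff `finrank (KD r (xi r ^ u)) = 0` for all `u ∈ rp r` (RPX, CJD).
Choose `y` with `tl R y ≤ ε/8` (`GJ.S_ABS`) and `|∏_(r≤y) … - PT T| ≤ ε/8` (TPR). ENL with
`Rp = {(r, u) | r ∈ T, 1 < r ≤ y, u ∈ rp r}` (`IsR` by RPX), `τ = 0`: `#{f ∧ ∀ r ∈ T, r ≤ y, GoodA r}` is `∏_(r≤y) … #{f}` up to `ε/8 q^m`, and
`#{f ∧ ∃ r ∈ T, r > y, ¬ GoodA r} ≤ (tl R y + ε/8) q^m` by EB1 and EB2 (`#Dn ≤ q^m`: AVP). -/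
def S_INF : Prop := ∀ (k : Type) [Field k] [Fintype k] (n : ℕ) (a : Fin n → k[X]) (N : ℕ), Geo a N →
  5 ≤ Fintype.card k → ∀ T : Set ℕ, Adt T → ∀ ε : ℝ, 0 < ε → ∀ᶠ m : ℕ in Filter.atTop,
  ∀ f : k[X] → Prop, AdmD (Del a) f →
  |(((Dn (Del a) m).filter fun D => f D ∧ ∀ r : ℕ, Td T r → GoodA r a D).card : ℝ) -
    PT T * (((Dn (Del a) m).filter fun D => f D).card : ℝ)| ≤ ε * (Fintype.card k : ℝ) ^ m

end Pool.Agent.Q269.GL
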